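import Mathlib
import Pool.Agent.Lib_helper78.BMUpper
import Pool.Agent.Lib_helper78.BMLower

/-!
# A full Bedford-McMullen carpet which is not minimal for conformal Hausdorff dimension

The carpet of the grid with `4` columns and `16` rows with `1, 8, 8, 1` chosen rectangles in the
four columns.
-/

set_option autoImplicit false

namespace Pool.Agent.Results.MP_ecb7d4_gt.NotMinimal

open scoped ENNReal NNReal

/-- The plane with the Euclidean metric. -/
abbrev Plane : Type := EuclideanSpace ℝ (Fin 2)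

/-- The map `φ_{ij}(x, y) = ((x + i) / m, (y + j) / n)`. -/
noncomputable def phi (m n : ℕ) (d : Fin m × Fin n) (p : Plane) : Plane :=
  !₂[(p 0 + ((d.1 : ℕ) : ℝ)) / (m : ℝ), (p 1 + ((d.2 : ℕ) : ℝ)) / (n : ℝ)]

/-- `E` is a nonempty compact set with `E = ⋃ φ_{ij}(E)`, the union over `(i, j) ∈ D`. -/
def IsCarpet (m n : ℕ) (D : Finset (Fin m × Fin n)) (E : Set Plane) : Prop :=
  IsCompact E ∧ E.Nonempty ∧ E = ⋃ d ∈ D, phi m n d '' E

/-- Every column contains at least one chosen rectangle. -/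
def Full {m n : ℕ} (D : Finset (Fin m × Fin n)) : Prop := ∀ i, ∃ j, (i, j) ∈ D

/-- The homeomorphism `f` is quasisymmetric. -/
def Quasisymmetric {X Y : Type} [MetricSpace X] [MetricSpace Y] (f : X ≃ₜ Y) : Prop :=
  ∃ η : ℝ≥0 ≃ₜ ℝ≥0, ∀ (x a b : X) (t : ℝ≥0), dist x a ≤ t * dist x b →
    dist (f x) (f a) ≤ η t * dist (f x) (f b)

/-- The conformal Hausdorff dimension: the infimum of the Hausdorff dimensions of the metric spaces
which are quasisymmetrically equivalent to `X`. -/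
noncomputable def confDim (X : Type) [MetricSpace X] : ℝ≥0∞ :=
  sInf {s | ∃ (Y : Type) (_ : MetricSpace Y) (f : X ≃ₜ Y), Quasisymmetric f ∧
    dimH (Set.univ : Set Y) = s}

/-! ### the plane -/

/-- exchange of the coordinates, to the plane with the maximum metric -/
noncomputable def T : Plane ≃L[ℝ] (ℝ × ℝ) :=
  LinearEquiv.toContinuousLinearEquiv
    { toFun := fun p => (p 1, p 0)
      invFun := fun q => !₂[q.2, q.1]
      map_add' := fun p q => rfl
      map_smul' := fun c p => rfl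
      left_inv := fun p => by
        ext i
        fin_cases i <;> rfl
      right_inv := fun q => rfl }

theorem T_apply (p : Plane) : T p = (p 1, p 0) := rfl

theorem dist_T_le (p q : Plane) : dist (T p) (T q) ≤ dist p q := by
  rw [T_apply, T_apply, Prod.dist_eq, EuclideanSpace.dist_eq, Fin.sum_univ_two]
  refine max_le ?_ ?_
  · exact Real.le_sqrt_of_sq_le (by nlinarith [sq_nonneg (dist (p 0) (q 0))])
  · exact Real.le_sqrt_of_sq_le (by nlinarith [sq_nonneg (dist (p 1) (q 1))])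

theorem le_dist_T (p q : Plane) : dist p q ≤ 2 * dist (T p) (T q) := by
  rw [T_apply, T_apply, Prod.dist_eq, EuclideanSpace.dist_eq, Fin.sum_univ_two]
  have h0 : 0 ≤ dist (p 0) (q 0) := dist_nonneg
  have h1 : 0 ≤ dist (p 1) (q 1) := dist_nonneg
  have h2 : dist (p 0) (q 0) ≤ max (dist (p 1) (q 1)) (dist (p 0) (q 0)) := le_max_right _ _
  have h3 : dist (p 1) (q 1) ≤ max (dist (p 1) (q 1)) (dist (p 0) (q 0)) := le_max_left _ _
  refine Real.sqrt_le_iff.2 ⟨by positivity, ?_⟩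
  nlinarith

/-! ### uniqueness of the carpet -/

theorem dist_phi_le {m n : ℕ} (hm : 2 ≤ m) (hn : 2 ≤ n) (d : Fin m × Fin n) (p q : Plane) :
    dist (phi m n d p) (phi m n d q) ≤ dist p q / 2 := by
  have key : ∀ (k : ℕ) (x y c : ℝ), 2 ≤ k → dist ((x + c) / k) ((y + c) / k) ≤ dist x y / 2 := by
    intro k x y c hk
    have hk' : (2 : ℝ) ≤ k := by exact_mod_cast hk
    rw [Real.dist_eq, Real.dist_eq, ← sub_div, add_sub_add_right_eq_sub, abs_div,
      abs_of_nonneg (by linarith : (0 : ℝ) ≤ k)]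
    exact div_le_div_of_nonneg_left (abs_nonneg _) (by norm_num) hk'
  rw [EuclideanSpace.dist_eq, EuclideanSpace.dist_eq, Fin.sum_univ_two, Fin.sum_univ_two]
  have h0 := key m (p 0) (q 0) ((d.1 : ℕ) : ℝ) hm
  have h1 := key n (p 1) (q 1) ((d.2 : ℕ) : ℝ) hn
  have e0 : phi m n d p 0 = (p 0 + ((d.1 : ℕ) : ℝ)) / m := rfl
  have e1 : phi m n d p 1 = (p 1 + ((d.2 : ℕ) : ℝ)) / n := rfl
  have e2 : phi m n d q 0 = (q 0 + ((d.1 : ℕ) : ℝ)) / m := rfl
  have e3 : phi m n d q 1 = (q 1 + ((d.2 : ℕ) : ℝ)) / n := rfl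
  rw [e0, e1, e2, e3]
  have h2 : Real.sqrt (dist (p 0) (q 0) ^ 2 + dist (p 1) (q 1) ^ 2) / 2 =
      Real.sqrt ((dist (p 0) (q 0) / 2) ^ 2 + (dist (p 1) (q 1) / 2) ^ 2) := by
    rw [div_pow, div_pow, ← add_div, Real.sqrt_div (by positivity)]
    congr 1
    rw [Real.sqrt_sq (by norm_num)]
  rw [h2]
  refine Real.sqrt_le_sqrt (add_le_add ?_ ?_)
  · exact pow_le_pow_left₀ dist_nonneg h0 2
  · exact pow_le_pow_left₀ dist_nonneg h1 2

theorem carpet_subset {m n : ℕ} (hm : 2 ≤ m) (hn : 2 ≤ n) {D : Finset (Fin m × Fin n)}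
    {E E' : Set Plane} (hE : IsCarpet m n D E) (hE' : IsCarpet m n D E') : E ⊆ E' := by
  obtain ⟨hc, hne, heq⟩ := hE
  obtain ⟨hc', hne', heq'⟩ := hE'
  obtain ⟨p0, hp0, hmax⟩ := hc.exists_isMaxOn hne
    (Metric.continuous_infDist_pt E').continuousOn
  have hbd : ∀ p ∈ E, Metric.infDist p E' ≤ Metric.infDist p0 E' / 2 := by
    intro p hp
    rw [heq] at hp
    simp only [Set.mem_iUnion, Set.mem_image] at hp
    obtain ⟨d, hd, q, hq, rfl⟩ := hp
    obtain ⟨q', hq', hqq⟩ := hc'.exists_infDist_eq_dist hne' q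
    have h1 : phi m n d q' ∈ E' := by
      rw [heq']
      simp only [Set.mem_iUnion, Set.mem_image]
      exact ⟨d, hd, q', hq', rfl⟩
    have h2 := Metric.infDist_le_dist_of_mem (x := phi m n d q) h1
    have h3 := dist_phi_le hm hn d q q'
    have h4 : Metric.infDist q E' ≤ Metric.infDist p0 E' := hmax hq
    rw [← hqq] at h3
    linarith
  have h0 := hbd p0 hp0
  have h5 : 0 ≤ Metric.infDist p0 E' := Metric.infDist_nonneg
  intro p hp
  have h6 := hbd p hp
  have h7 : Metric.infDist p E' = 0 :=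
    le_antisymm (by linarith) Metric.infDist_nonneg
  exact (hc'.isClosed.mem_iff_infDist_zero hne').2 h7

/-- A carpet is determined by the set of the chosen rectangles. -/
theorem carpet_unique {m n : ℕ} (hm : 2 ≤ m) (hn : 2 ≤ n) {D : Finset (Fin m × Fin n)}
    {E E' : Set Plane} (hE : IsCarpet m n D E) (hE' : IsCarpet m n D E') : E = E' :=
  (carpet_subset hm hn hE hE').antisymm (carpet_subset hm hn hE' hE)

/-! ### the example -/

/-- The chosen rectangles: the lowest one in each column, and the lowest eight ones in the two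
middle columns. -/
def D : Finset (Fin 4 × Fin 16) :=
  Finset.univ.filter fun d => d.2.val = 0 ∨ ((d.1.val = 1 ∨ d.1.val = 2) ∧ d.2.val < 8)

theorem mem_D (d : Fin 4 × Fin 16) : d ∈ D ↔ (d.2, d.1) ∈ BM.D := by
  simp [D, BM.D]

/-- the carpet -/
noncomputable def E : Set Plane := T ⁻¹' BM.K

theorem T_phi (d : Fin 4 × Fin 16) (p : Plane) : T (phi 4 16 d p) =
    (((T p).1 + ((d.2 : ℕ) : ℝ)) / ((16 : ℕ) : ℝ), ((T p).2 + ((d.1 : ℕ) : ℝ)) / ((4 : ℕ) : ℝ)) :=
  rfl

theorem isCarpet_E : IsCarpet 4 16 D E := by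
  refine ⟨?_, ?_, ?_⟩
  · exact T.toHomeomorph.isCompact_preimage.2 BM.K_compact
  · obtain ⟨q, hq⟩ := BM.K_nonempty
    refine ⟨T.symm q, ?_⟩
    change T (T.symm q) ∈ BM.K
    rw [T.apply_symm_apply]
    exact hq
  · ext p
    simp only [Set.mem_iUnion, Set.mem_image]
    constructor
    · intro hp
      have hp' : T p ∈ BM.K := hp
      rw [BM.K_ifs] at hp'
      simp only [Set.mem_iUnion, Set.mem_image] at hp'
      obtain ⟨d, hd, q, hq, hqp⟩ := hp'
      refine ⟨(d.2, d.1), (mem_D _).2 hd, T.symm q, ?_, ?_⟩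
      · change T (T.symm q) ∈ BM.K
        rw [T.apply_symm_apply]
        exact hq
      · apply T.injective
        rw [T_phi, T.apply_symm_apply]
        exact hqp
    · rintro ⟨d, hd, q, hq, rfl⟩
      change T (phi 4 16 d q) ∈ BM.K
      rw [BM.K_ifs]
      simp only [Set.mem_iUnion, Set.mem_image]
      exact ⟨(d.2, d.1), (mem_D d).1 hd, T q, hq, (T_phi d q).symm⟩

theorem dimH_E : ((5 / 4 : ℝ≥0) : ℝ≥0∞) ≤ dimH E := by
  have h1 : T '' E = BM.K := by
    rw [E, Set.image_preimage_eq _ T.surjective]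
  rw [← T.dimH_image, h1]
  exact BM.dimH_lower

/-! ### the quasisymmetric map -/

/-- the map to the new metric space -/
noncomputable def F0 (p : E) : BM.Y := BM.toY ⟨T p, p.2⟩

theorem dist_F0 (p q : E) : dist (F0 p) (F0 q) = BM.del (T p) (T q) := rfl

theorem F0_bijective : Function.Bijective F0 := by
  constructor
  · intro p q h
    have h1 : (⟨T p, p.2⟩ : BM.K) = ⟨T q, q.2⟩ := BM.toY_inj h
    exact Subtype.ext (T.injective (congrArg Subtype.val h1))
  · intro q
    refine ⟨⟨T.symm q.1, ?_⟩, ?_⟩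
    · change T (T.symm q.1) ∈ BM.K
      rw [T.apply_symm_apply]
      exact q.2
    · apply Subtype.ext
      change T (T.symm q.1) = q.1
      rw [T.apply_symm_apply]

theorem F0_continuous : Continuous F0 := by
  rw [Metric.continuous_iff]
  intro p ε hε
  have hU := BM.U_pos 0 (T p).2
  obtain ⟨l, hl⟩ := exists_pow_lt_of_lt_one (show 0 < ε / (1022 * BM.U 0 (T p).2) by positivity)
    (by norm_num : (1 / 2 : ℝ) < 1)
  refine ⟨(1 / 4) ^ l, by positivity, ?_⟩
  intro q hq
  have h1 : (4 : ℝ) ^ l * dist (T p) (T q) ≤ 1 := by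
    have h2 : dist (T p) (T q) ≤ (1 / 4) ^ l := by
      refine (dist_T_le p q).trans ?_
      rw [dist_comm]
      exact hq.le
    calc (4 : ℝ) ^ l * dist (T p) (T q) ≤ 4 ^ l * (1 / 4) ^ l := by gcongr
      _ = 1 := by rw [← mul_pow]; norm_num
  have h2 := BM.del_upper p.2 q.2 h1
  have h3 := BM.U_add_le 0 l (T p).2
  rw [zero_add] at h3
  rw [dist_comm, dist_F0]
  have h4 : (1 / 2 : ℝ) ^ l * (1022 * BM.U 0 (T p).2) < ε := by
    rwa [lt_div_iff₀ (by positivity)] at hl
  calc BM.del (T p) (T q) ≤ 1022 * BM.U l (T p).2 := h2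
    _ ≤ 1022 * ((1 / 2) ^ l * BM.U 0 (T p).2) := by gcongr
    _ < ε := by linarith

/-- the homeomorphism to the new metric space -/
noncomputable def f0 : E ≃ₜ BM.Y :=
  haveI : CompactSpace E := isCompact_iff_compactSpace.1 isCarpet_E.1
  Continuous.homeoOfEquivCompactToT2 (f := Equiv.ofBijective F0 F0_bijective) F0_continuous

theorem f0_apply (p : E) : f0 p = F0 p := rfl

/-- the distortion function -/
noncomputable def eta0 (t : ℝ≥0) : ℝ≥0 :=
  ⟨BM.eta (2 * t), BM.eta_nonneg (by positivity)⟩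

theorem eta0_coe (t : ℝ≥0) : (eta0 t : ℝ) = BM.eta (2 * t) := rfl

theorem eta0_strictMono : StrictMono eta0 := by
  intro s t hst
  have h : (s : ℝ) < t := hst
  rw [← NNReal.coe_lt_coe, eta0_coe, eta0_coe]
  exact BM.eta_mono (Set.mem_Ici.2 (by positivity)) (Set.mem_Ici.2 (by positivity)) (by linarith)

theorem eta0_surjective : Function.Surjective eta0 := by
  intro y
  have h1 : ContinuousOn (fun t : ℝ => BM.eta (2 * t)) (Set.Icc 0 (y : ℝ)) :=
    (BM.eta_cont.comp (continuous_const.mul continuous_id)).continuousOn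
  have h2 := intermediate_value_Icc (show (0 : ℝ) ≤ y from y.2) h1
  have h3 : (y : ℝ) ∈ Set.Icc (BM.eta (2 * 0)) (BM.eta (2 * (y : ℝ))) := by
    refine ⟨?_, ?_⟩
    · rw [mul_zero, BM.eta_zero]
      exact y.2
    · have hy : (0 : ℝ) ≤ y := y.2
      unfold BM.eta
      have h4 : 0 ≤ Real.sqrt (2 * (y : ℝ)) := Real.sqrt_nonneg _
      rcases le_total (y : ℝ) 1 with h5 | h5
      · have h6 : (y : ℝ) ≤ Real.sqrt (2 * (y : ℝ)) := by
          apply Real.le_sqrt_of_sq_le
          nlinarith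
        have h7 : (0 : ℝ) ≤ (4 * (2 * (y : ℝ))) ^ 5 := by positivity
        nlinarith
      · have h6 : (y : ℝ) ≤ (4 * (2 * (y : ℝ))) ^ 5 := by
          calc (y : ℝ) = y ^ 1 := (pow_one _).symm
            _ ≤ y ^ 5 := pow_le_pow_right₀ h5 (by norm_num)
            _ ≤ (4 * (2 * (y : ℝ))) ^ 5 := pow_le_pow_left₀ hy (by linarith) 5
        nlinarith
  obtain ⟨t, ht, hty⟩ := h2 h3
  exact ⟨⟨t, ht.1⟩, NNReal.coe_injective hty⟩

/-- the distortion function as a homeomorphism -/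
noncomputable def eta1 : ℝ≥0 ≃ₜ ℝ≥0 :=
  (eta0_strictMono.orderIsoOfSurjective _ eta0_surjective).toHomeomorph

theorem eta1_apply (t : ℝ≥0) : eta1 t = eta0 t := rfl

theorem quasi_f0 : Quasisymmetric f0 := by
  refine ⟨eta1, ?_⟩
  intro x a b t h
  rw [f0_apply, f0_apply, f0_apply, eta1_apply, eta0_coe, dist_F0, dist_F0]
  refine BM.quasi x.2 a.2 b.2 (by positivity) ?_
  have h1 := dist_T_le x a
  have h2 := le_dist_T x b
  have h3 : dist (x : Plane) (a : Plane) ≤ t * dist (x : Plane) (b : Plane) := h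
  calc dist (T x) (T a) ≤ dist (x : Plane) (a : Plane) := h1
    _ ≤ t * dist (x : Plane) (b : Plane) := h3
    _ ≤ t * (2 * dist (T x) (T b)) := by gcongr
    _ = 2 * t * dist (T x) (T b) := by ring

theorem confDim_E : confDim E ≤ ((6 / 5 : ℝ≥0) : ℝ≥0∞) := by
  have h0 : confDim E ≤ dimH (Set.univ : Set BM.Y) :=
    sInf_le ⟨BM.Y, inferInstance, f0, quasi_f0, rfl⟩
  refine h0.trans ?_
  have h1 : (Set.univ : Set BM.Y) = Set.range BM.toY := by
    ext q
    exact ⟨fun _ => ⟨q, rfl⟩, fun _ => trivial⟩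
  rw [h1]
  exact BM.dimH_upper

/-- There is a full Bedford-McMullen carpet whose conformal Hausdorff dimension is less than its
Hausdorff dimension: with `m = 4` columns and `n = 16` rows and `1, 8, 8, 1` chosen rectangles in
the columns. -/
theorem result : Full D ∧ ∃ E : Set Plane, IsCarpet 4 16 D E ∧
    (∀ E' : Set Plane, IsCarpet 4 16 D E' → E' = E) ∧
    confDim E ≤ ((6 / 5 : ℝ≥0) : ℝ≥0∞) ∧ ((5 / 4 : ℝ≥0) : ℝ≥0∞) ≤ dimH E ∧
    confDim E < dimH E := by
  refine ⟨fun i => ⟨0, by simp [D]⟩, E, isCarpet_E,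
    fun E' hE' => carpet_unique (by norm_num) (by norm_num) hE' isCarpet_E, confDim_E, dimH_E, ?_⟩
  refine confDim_E.trans_lt (lt_of_lt_of_le ?_ dimH_E)
  rw [ENNReal.coe_lt_coe, ← NNReal.coe_lt_coe]
  norm_num

end Pool.Agent.Results.MP_ecb7d4_gt.NotMinimal
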